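import Pool.Agent.H313.TE.Vs2

set_option autoImplicit false
set_option linter.all false

/-! A representation of a free group with finite orbit maps every proper free factor to a virtually
solvable group, which is virtually unipotent when the rank is at least three. -/

namespace Pool.Agent.Results.MP_b319aa_al.ProperFreeFactors

open Matrix

/-- representations of the free group of rank `n` -/
abbrev Rep (n d : ℕ) : Type := FreeGroup (Fin n) →* SpecialLinearGroup (Fin d) ℂ

/-- `ρ ∘ σ` is conjugate to `ρ` for every automorphism `σ`. -/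
def IsCharacteristic {n d : ℕ} (ρ : Rep n d) : Prop :=
  ∀ σ : MulAut (FreeGroup (Fin n)), ∃ g : SpecialLinearGroup (Fin d) ℂ,
    ∀ w, ρ (σ w) = g * ρ w * g⁻¹

/-- `ρ ∘ σ` is conjugate to `ρ` for the `σ` in a subgroup of finite index. -/
def HasFiniteOrbit {n d : ℕ} (ρ : Rep n d) : Prop :=
  ∃ V : Subgroup (MulAut (FreeGroup (Fin n))), V.FiniteIndex ∧
    ∀ σ ∈ V, ∃ g : SpecialLinearGroup (Fin d) ℂ, ∀ w, ρ (σ w) = g * ρ w * g⁻¹

/-- the free factor generated by the generators other than the `i`-th -/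
def factor {n : ℕ} (i : Fin n) : Subgroup (FreeGroup (Fin n)) :=
  Subgroup.closure {x | ∃ j, j ≠ i ∧ x = FreeGroup.of j}

/-- the image under `ρ` of the free factor `σ(factor i)` -/
def factorImage {n d : ℕ} (ρ : Rep n d) (σ : MulAut (FreeGroup (Fin n))) (i : Fin n) :
    Subgroup (SpecialLinearGroup (Fin d) ℂ) :=
  ((factor i).map σ.toMonoidHom).map ρ

/-- `L` has a solvable subgroup of finite index. -/
def IsVirtuallySolvable {d : ℕ} (L : Subgroup (SpecialLinearGroup (Fin d) ℂ)) : Prop :=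
  ∃ S : Subgroup L, S.FiniteIndex ∧ Group.IsSolvable S

/-- `L` has a solvable subgroup of finite index that consists of unipotent matrices. -/
def IsVirtuallyUnipotent {d : ℕ} (L : Subgroup (SpecialLinearGroup (Fin d) ℂ)) : Prop :=
  ∃ S : Subgroup L, S.FiniteIndex ∧ Group.IsSolvable S ∧ ∀ x ∈ S, IsNilpotent (x.val.val - 1)

theorem result (n d : ℕ) (ρ : Rep n d) (h : HasFiniteOrbit ρ ∨ IsCharacteristic ρ) :
    (∀ σ i, IsVirtuallySolvable (factorImage ρ σ i)) ∧
      (3 ≤ n → ∀ σ i, IsVirtuallyUnipotent (factorImage ρ σ i)) := by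
  have h' : HasFiniteOrbit ρ := by
    rcases h with h | h
    · exact h
    · exact ⟨⊤, inferInstance, fun σ _ => h σ⟩
  obtain ⟨V, hV, hρ⟩ := h'
  have h1 : ∀ σ i, factorImage ρ σ i =
      ((ρ.comp σ.toMonoidHom).comp (Pool.Agent.H313.TE.Fac.fac i).subtype).range := by
    intro σ i
    rw [MonoidHom.range_comp, Subgroup.range_subtype, ← Subgroup.map_map]
    rfl
  have hV' : ∀ σ : MulAut (FreeGroup (Fin n)),
      (V.comap (MulAut.conj σ).toMonoidHom).FiniteIndex := by
    intro σ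
    refine ⟨?_⟩
    rw [Subgroup.index_comap_of_surjective _ (MulAut.conj σ).surjective]
    exact hV.index_ne_zero
  have hρ' : ∀ σ : MulAut (FreeGroup (Fin n)), ∀ τ ∈ V.comap (MulAut.conj σ).toMonoidHom,
      ∃ g : SpecialLinearGroup (Fin d) ℂ,
        ∀ w, (ρ.comp σ.toMonoidHom) (τ w) = g * (ρ.comp σ.toMonoidHom) w * g⁻¹ := by
    intro σ τ hτ
    have hτ' : σ * τ * σ⁻¹ ∈ V := hτ
    obtain ⟨g, hg⟩ := hρ _ hτ'
    refine ⟨g, fun w => ?_⟩
    show ρ (σ (τ w)) = g * ρ (σ w) * g⁻¹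
    rw [← hg, MulAut.mul_apply, MulAut.mul_apply, MulAut.inv_apply_self]
  refine ⟨fun σ i => ?_, fun hn σ i => ?_⟩
  · unfold IsVirtuallySolvable
    rw [h1]
    exact Pool.Agent.H313.TE.VS.virt (hV' σ) (hρ' σ) i
  · unfold IsVirtuallyUnipotent
    rw [h1]
    exact Pool.Agent.H313.TE.VS.virt_unip hn (hV' σ) (hρ' σ) i

end Pool.Agent.Results.MP_b319aa_al.ProperFreeFactors
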